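import Mathlib

/-!
# Two commuting diffeomorphisms of class `C^{1+1/2}` and a wandering interval on which a third one acts
-/

set_option autoImplicit false

open Set Finset

namespace Pool.Agent.K7.H79.G4

/-- `f` maps `[0,1]` to itself, with positive derivative `f'` which is `1/2`-Hölder -/
structure D32 (f f' : ℝ → ℝ) (C : ℝ) : Prop where
  maps : ∀ x ∈ Icc (0 : ℝ) 1, f x ∈ Icc (0 : ℝ) 1
  deriv : ∀ x ∈ Icc (0 : ℝ) 1, HasDerivWithinAt f (f' x) (Icc 0 1) x
  pos : ∀ x ∈ Icc (0 : ℝ) 1, 0 < f' x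
  hold : ∀ x ∈ Icc (0 : ℝ) 1, ∀ y ∈ Icc (0 : ℝ) 1, |f' x - f' y| ≤ C * √|x - y|

lemma cont_of_hold {f' : ℝ → ℝ} {C : ℝ}
    (h : ∀ x ∈ Icc (0 : ℝ) 1, ∀ y ∈ Icc (0 : ℝ) 1, |f' x - f' y| ≤ C * √|x - y|) :
    ContinuousOn f' (Icc 0 1) := by
  intro x hx
  rw [ContinuousWithinAt, tendsto_iff_dist_tendsto_zero]
  have h1 : Filter.Tendsto (fun y => C * √|y - x|) (nhdsWithin x (Icc 0 1)) (nhds 0) := by
    have : Continuous fun y : ℝ => C * √|y - x| := by fun_prop
    have h2 := this.tendsto x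
    simp only [sub_self, abs_zero, Real.sqrt_zero, mul_zero] at h2
    exact h2.mono_left nhdsWithin_le_nhds
  refine squeeze_zero' (Filter.Eventually.of_forall fun y => dist_nonneg) ?_ h1
  filter_upwards [self_mem_nhdsWithin] with y hy
  rw [Real.dist_eq]
  exact h y hy x hx

lemma log_hold {f f' : ℝ → ℝ} {C : ℝ} (h : D32 f f' C) : ∃ K : ℝ, 0 ≤ K ∧
    ∀ x ∈ Icc (0 : ℝ) 1, ∀ y ∈ Icc (0 : ℝ) 1,
      |Real.log (f' x) - Real.log (f' y)| ≤ K * √|x - y| := by
  obtain ⟨x0, hx0, hmin⟩ := isCompact_Icc.exists_isMinOn (nonempty_Icc.2 zero_le_one)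
    (cont_of_hold h.hold)
  have hm : 0 < f' x0 := h.pos x0 hx0
  have key : ∀ x ∈ Icc (0 : ℝ) 1, ∀ y ∈ Icc (0 : ℝ) 1,
      Real.log (f' x) - Real.log (f' y) ≤ |C| / f' x0 * √|x - y| := by
    intro x hx y hy
    have hxp := h.pos x hx
    have hyp := h.pos y hy
    rw [← Real.log_div hxp.ne' hyp.ne']
    have h1 := Real.log_le_sub_one_of_pos (div_pos hxp hyp)
    have h2 : f' x / f' y - 1 = (f' x - f' y) / f' y := by field_simp
    have h3 : (f' x - f' y) / f' y ≤ |C| * √|x - y| / f' x0 := by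
      have h4 : f' x - f' y ≤ |C| * √|x - y| :=
        (le_abs_self _).trans ((h.hold x hx y hy).trans
          (mul_le_mul_of_nonneg_right (le_abs_self C) (Real.sqrt_nonneg _)))
      have h5 : f' x0 ≤ f' y := hmin hy
      calc (f' x - f' y) / f' y ≤ |C| * √|x - y| / f' y := by gcongr
        _ ≤ |C| * √|x - y| / f' x0 := by gcongr
    calc Real.log (f' x / f' y) ≤ f' x / f' y - 1 := h1
      _ = (f' x - f' y) / f' y := h2
      _ ≤ |C| * √|x - y| / f' x0 := h3
      _ = |C| / f' x0 * √|x - y| := by ring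
  refine ⟨|C| / f' x0, by positivity, fun x hx y hy => abs_le.2 ⟨?_, key x hx y hy⟩⟩
  have := key y hy x hx
  rw [abs_sub_comm] at this
  linarith

/-- `f` is a differentiable self map of `[0,1]`, positive derivative, distortion at most `D` on
`[u,v]` -/
def Q (u v : ℝ) (f : ℝ → ℝ) (D : ℝ) : Prop := ∃ f' : ℝ → ℝ,
  (∀ x ∈ Icc (0 : ℝ) 1, HasDerivWithinAt f (f' x) (Icc 0 1) x) ∧
  (∀ x ∈ Icc (0 : ℝ) 1, 0 < f' x) ∧ (∀ x ∈ Icc (0 : ℝ) 1, f x ∈ Icc (0 : ℝ) 1) ∧
  ∀ x ∈ Icc u v, ∀ y ∈ Icc u v, |Real.log (f' x) - Real.log (f' y)| ≤ D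

lemma strictMono_of_deriv {f f' : ℝ → ℝ}
    (h : ∀ x ∈ Icc (0 : ℝ) 1, HasDerivWithinAt f (f' x) (Icc 0 1) x)
    (hp : ∀ x ∈ Icc (0 : ℝ) 1, 0 < f' x) : StrictMonoOn f (Icc 0 1) := by
  apply strictMonoOn_of_deriv_pos (convex_Icc 0 1)
  · intro x hx
    exact (h x hx).continuousWithinAt
  · intro x hx
    rw [interior_Icc] at hx
    have hx' : x ∈ Icc (0 : ℝ) 1 := Ioo_subset_Icc_self hx
    rw [((h x hx').hasDerivAt (Icc_mem_nhds hx.1 hx.2)).deriv]
    exact hp x hx'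

/-- mean value theorem on subintervals -/
lemma mvt {f f' : ℝ → ℝ} (h : ∀ x ∈ Icc (0 : ℝ) 1, HasDerivWithinAt f (f' x) (Icc 0 1) x)
    {s t : ℝ} (hs : 0 ≤ s) (hst : s < t) (ht : t ≤ 1) :
    ∃ ξ ∈ Ioo s t, f t - f s = f' ξ * (t - s) := by
  have hsub : Icc s t ⊆ Icc (0 : ℝ) 1 := Icc_subset_Icc hs ht
  obtain ⟨ξ, hξ, e⟩ := exists_hasDerivAt_eq_slope f f' hst
    (fun x hx => ((h x (hsub hx)).continuousWithinAt).mono hsub)
    (fun x hx => (h x (hsub (Ioo_subset_Icc_self hx))).hasDerivAt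
      (Icc_mem_nhds (lt_of_le_of_lt hs hx.1) (lt_of_lt_of_le hx.2 ht)))
  refine ⟨ξ, hξ, ?_⟩
  rw [e, div_mul_cancel₀ _ (sub_pos.2 hst).ne']

lemma Q_step {u v : ℝ} (hu : 0 ≤ u) (huv : u < v) (hv : v ≤ 1) {f a a' : ℝ → ℝ} {C K D : ℝ}
    (hf : Q u v f D) (ha : D32 a a' C) (hK : ∀ x ∈ Icc (0 : ℝ) 1, ∀ y ∈ Icc (0 : ℝ) 1,
      |Real.log (a' x) - Real.log (a' y)| ≤ K * √|x - y|) (hK0 : 0 ≤ K) {g : ℝ → ℝ}
    (hg : ∀ x ∈ Icc (0 : ℝ) 1, g x = a (f x)) : Q u v g (D + K * √(f v - f u)) := by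
  obtain ⟨f', h1, h2, h3, h4⟩ := hf
  have hsub : Icc u v ⊆ Icc (0 : ℝ) 1 := Icc_subset_Icc hu hv
  have hmono := strictMono_of_deriv h1 h2
  refine ⟨fun x => a' (f x) * f' x, ?_, ?_, ?_, ?_⟩
  · intro x hx
    have h5 := (ha.deriv (f x) (h3 x hx)).comp x (h1 x hx) (fun y hy => h3 y hy)
    exact h5.congr (fun y hy => hg y hy) (hg x hx)
  · intro x hx
    exact mul_pos (ha.pos _ (h3 x hx)) (h2 x hx)
  · intro x hx
    rw [hg x hx]
    exact ha.maps _ (h3 x hx)
  · intro x hx y hy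
    have hx1 := hsub hx
    have hy1 := hsub hy
    simp only
    rw [Real.log_mul (ha.pos _ (h3 x hx1)).ne' (h2 x hx1).ne',
      Real.log_mul (ha.pos _ (h3 y hy1)).ne' (h2 y hy1).ne']
    have h5 := h4 x hx y hy
    have h6 := hK (f x) (h3 x hx1) (f y) (h3 y hy1)
    have hu1 := hsub (left_mem_Icc.2 huv.le)
    have hv1 := hsub (right_mem_Icc.2 huv.le)
    have h7 : |f x - f y| ≤ f v - f u := by
      have a1 := hmono.monotoneOn hu1 hx1 hx.1
      have a2 := hmono.monotoneOn hx1 hv1 hx.2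
      have a3 := hmono.monotoneOn hu1 hy1 hy.1
      have a4 := hmono.monotoneOn hy1 hv1 hy.2
      rw [abs_le]
      constructor <;> linarith
    have h8 : K * √|f x - f y| ≤ K * √(f v - f u) :=
      mul_le_mul_of_nonneg_left (Real.sqrt_le_sqrt h7) hK0
    have h9 : Real.log (a' (f x)) + Real.log (f' x) - (Real.log (a' (f y)) + Real.log (f' y))
        = (Real.log (f' x) - Real.log (f' y))
          + (Real.log (a' (f x)) - Real.log (a' (f y))) := by ring
    rw [h9]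
    exact (abs_add_le _ _).trans (by linarith)

/-- the interval cannot be too short -/
lemma length_low {u v : ℝ} (hu : 0 ≤ u) (huv : u < v) (hv : v ≤ 1) {f z z' : ℝ → ℝ} {C D : ℝ}
    (hf : Q u v f D) (hz : D32 z z' C) (hcomm : ∀ x ∈ Icc (0 : ℝ) 1, z (f x) = f (z x))
    (hzu : z u = u) (hzv : z v = v) {w : ℝ} (hw : w ∈ Ioo u v) (hC : 0 < C) :
    0 < f v - f u ∧ (|z w - w| / C) ^ 2 * Real.exp (-(2 * D)) ≤ f v - f u := by
  obtain ⟨f', h1, h2, h3, h4⟩ := hf
  have hsub : Icc u v ⊆ Icc (0 : ℝ) 1 := Icc_subset_Icc hu hv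
  have hmono := strictMono_of_deriv h1 h2
  have hzmono := strictMono_of_deriv hz.deriv hz.pos
  have hu1 := hsub (left_mem_Icc.2 huv.le)
  have hv1 := hsub (right_mem_Icc.2 huv.le)
  have hw1 : w ∈ Icc (0 : ℝ) 1 := hsub (Ioo_subset_Icc_self hw)
  have hl : 0 < f v - f u := sub_pos.2 (hmono hu1 hv1 huv)
  refine ⟨hl, ?_⟩
  set l := f v - f u with hldef
  have hzw : z w ∈ Ioo u v := by
    constructor
    · rw [← hzu]; exact hzmono hu1 hw1 hw.1
    · rw [← hzv]; exact hzmono hw1 hv1 hw.2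
  have hzw1 : z w ∈ Icc (0 : ℝ) 1 := hsub (Ioo_subset_Icc_self hzw)
  -- lower bound for the derivative of `f`
  obtain ⟨ξ, hξ, e⟩ := mvt h1 hu huv hv
  have hder : ∀ x ∈ Icc u v, Real.exp (-D) * l ≤ f' x := by
    intro x hx
    have hξ' := Ioo_subset_Icc_self hξ
    have h5 := (abs_le.1 (h4 ξ hξ' x hx)).2
    have h6 : f' ξ ≤ Real.exp D * f' x := by
      rw [← Real.exp_log (h2 ξ (hsub hξ'))]
      have : Real.exp (Real.log (f' ξ)) ≤ Real.exp (D + Real.log (f' x)) := by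
        apply Real.exp_le_exp.2; linarith
      rwa [Real.exp_add, Real.exp_log (h2 x (hsub hx))] at this
    have h7 : l ≤ f' ξ := by
      have h8 : v - u ≤ 1 := by linarith
      have h9 : 0 < f' ξ := h2 ξ (hsub hξ')
      rw [hldef, e]
      nlinarith
    have h8 : Real.exp (-D) * l ≤ Real.exp (-D) * (Real.exp D * f' x) :=
      mul_le_mul_of_nonneg_left (h7.trans h6) (Real.exp_pos _).le
    rw [← mul_assoc, ← Real.exp_add, neg_add_cancel, Real.exp_zero, one_mul] at h8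
    exact h8
  -- the displacement on the image interval is large
  have hdisp : Real.exp (-D) * l * |z w - w| ≤ |f (z w) - f w| := by
    have aux : ∀ s ∈ Icc u v, ∀ t ∈ Icc u v, s < t →
        Real.exp (-D) * l * (t - s) ≤ f t - f s := by
      intro s hs t ht hst
      obtain ⟨η, hη, e2⟩ := mvt h1 (hsub hs).1 hst (hsub ht).2
      rw [e2]
      apply mul_le_mul_of_nonneg_right _ (sub_pos.2 hst).le
      exact hder η ⟨hs.1.trans hη.1.le, hη.2.le.trans ht.2⟩
    have hwI := Ioo_subset_Icc_self hw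
    have hzwI := Ioo_subset_Icc_self hzw
    rcases lt_trichotomy (z w) w with h | h | h
    · have := aux _ hzwI _ hwI h
      rw [abs_of_neg (by linarith), abs_of_neg (by
        have := hmono hzw1 hw1 h; linarith)]
      linarith
    · rw [h]; simp
    · have := aux _ hwI _ hzwI h
      rw [abs_of_pos (by linarith), abs_of_pos (by
        have := hmono hw1 hzw1 h; linarith)]
      linarith
  -- the displacement on the image interval is small
  have hfu : z (f u) = f u := by rw [hcomm u hu1, hzu]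
  have hfv : z (f v) = f v := by rw [hcomm v hv1, hzv]
  have hfuv : f u < f v := hmono hu1 hv1 huv
  obtain ⟨ζ, hζ, e3⟩ := mvt hz.deriv (h3 u hu1).1 hfuv (h3 v hv1).2
  have hz1 : z' ζ = 1 := by
    rw [hfu, hfv] at e3
    have : (z' ζ - 1) * (f v - f u) = 0 := by linarith
    rcases mul_eq_zero.1 this with h | h
    · linarith
    · linarith
  have hfw : f u < f w := hmono hu1 hw1 hw.1
  have hfw2 : f w < f v := hmono hw1 hv1 hw.2
  obtain ⟨θ, hθ, e4⟩ := mvt hz.deriv (h3 u hu1).1 hfw (h3 w hw1).2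
  have hsmall : |f (z w) - f w| ≤ C * √l * l := by
    rw [← hcomm w hw1]
    have e5 : z (f w) - f w = (z' θ - 1) * (f w - f u) := by
      rw [hfu] at e4; linarith
    rw [e5, abs_mul, abs_of_pos (sub_pos.2 hfw)]
    have hθ1 : θ ∈ Icc (0 : ℝ) 1 := ⟨(h3 u hu1).1.trans hθ.1.le, hθ.2.le.trans (h3 w hw1).2⟩
    have hζ1 : ζ ∈ Icc (0 : ℝ) 1 := ⟨(h3 u hu1).1.trans hζ.1.le, hζ.2.le.trans (h3 v hv1).2⟩
    have h5 : |z' θ - 1| ≤ C * √l := by
      rw [← hz1]
      refine (hz.hold θ hθ1 ζ hζ1).trans ?_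
      apply mul_le_mul_of_nonneg_left _ hC.le
      apply Real.sqrt_le_sqrt
      rw [abs_le]
      constructor <;> linarith [hθ.1, hθ.2, hζ.1, hζ.2]
    have h6 : f w - f u ≤ l := by linarith
    exact mul_le_mul h5 h6 (sub_pos.2 hfw).le (by positivity)
  have h7 : Real.exp (-D) * |z w - w| ≤ C * √l := by
    have h8 : Real.exp (-D) * |z w - w| * l ≤ C * √l * l := by
      calc Real.exp (-D) * |z w - w| * l = Real.exp (-D) * l * |z w - w| := by ring
        _ ≤ |f (z w) - f w| := hdisp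
        _ ≤ C * √l * l := hsmall
    exact le_of_mul_le_mul_right h8 hl
  have h8 : Real.exp (-D) * (|z w - w| / C) ≤ √l := by
    rw [← mul_div_assoc, div_le_iff₀ hC]
    linarith
  have h9 : (Real.exp (-D) * (|z w - w| / C)) ^ 2 ≤ √l ^ 2 :=
    pow_le_pow_left₀ (by positivity) h8 2
  rw [Real.sq_sqrt hl.le, mul_pow, ← Real.exp_nat_mul] at h9
  have e6 : ((2 : ℕ) : ℝ) * -D = -(2 * D) := by push_cast; ring
  rw [e6] at h9
  linarith

/-- the bound for the distortion -/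
noncomputable def Drec (K : ℝ) (s : ℕ → ℕ → ℝ) : ℕ → ℕ → ℝ
  | 0, 0 => 0
  | i + 1, 0 => Drec K s i 0 + K * s i 0
  | 0, j + 1 => Drec K s 0 j + K * s 0 j
  | i + 1, j + 1 => min (Drec K s i (j + 1) + K * s i (j + 1)) (Drec K s (i + 1) j + K * s (i + 1) j)
termination_by i j => i + j

lemma Drec_left (K : ℝ) (s : ℕ → ℕ → ℝ) (i j : ℕ) :
    Drec K s (i + 1) j ≤ Drec K s i j + K * s i j := by
  rcases j with _ | j
  · rw [Drec]
  · rw [Drec]; exact min_le_left _ _

lemma Drec_right (K : ℝ) (s : ℕ → ℕ → ℝ) (i j : ℕ) :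
    Drec K s i (j + 1) ≤ Drec K s i j + K * s i j := by
  rcases i with _ | i
  · rw [Drec]
  · rw [Drec]; exact min_le_right _ _

/-- the averaging step -/
lemma avg_step (D s : ℕ → ℕ → ℝ) (K : ℝ) (h1 : ∀ i j, D (i + 1) j ≤ D i j + K * s i j)
    (h2 : ∀ i j, D i (j + 1) ≤ D i j + K * s i j) (k : ℕ) :
    (∑ i ∈ Finset.range (k + 2), D i (k + 1 - i)) / (k + 2)
      ≤ (∑ i ∈ Finset.range (k + 1), (D i (k - i) + K * s i (k - i))) / (k + 1) := by
  have hk1 : (0 : ℝ) < k + 1 := by positivity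
  have hk2 : (0 : ℝ) < k + 2 := by positivity
  set T : ℕ → ℝ := fun i => D i (k - i) + K * s i (k - i) with hT
  -- `(k+1) D_i ≤ i T_{i-1} + (k+1-i) T_i`
  have hpt : ∀ i ∈ Finset.range (k + 2), ((k : ℝ) + 1) * D i (k + 1 - i)
      ≤ (i : ℝ) * T (i - 1) + ((k : ℝ) + 1 - i) * T i := by
    intro i hi
    rw [Finset.mem_range] at hi
    rcases Nat.eq_zero_or_pos i with h0 | h0
    · subst h0
      have := h2 0 k
      simp only [hT, Nat.cast_zero, zero_mul, zero_add, Nat.sub_zero, sub_zero]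
      nlinarith
    · obtain ⟨i', rfl⟩ : ∃ i', i = i' + 1 := ⟨i - 1, by omega⟩
      have e1 : k + 1 - (i' + 1) = k - i' := by omega
      have a1 := h1 i' (k - i')
      rw [e1]
      have hc1 : (0 : ℝ) ≤ ((i' + 1 : ℕ) : ℝ) := by positivity
      rcases Nat.lt_or_ge k (i' + 1) with h3 | h3
      · have h4 : i' = k := by omega
        subst h4
        simp only [hT, Nat.add_sub_cancel, Nat.sub_self]
        push_cast
        have : ((i' : ℝ) + 1 - (i' + 1)) = 0 := by ring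
        rw [this, zero_mul, add_zero]
        rw [Nat.sub_self] at a1
        nlinarith
      · have h4 : k - i' = (k - (i' + 1)) + 1 := by omega
        have a2 := h2 (i' + 1) (k - (i' + 1))
        rw [← h4] at a2
        have hc2 : (0 : ℝ) ≤ (k : ℝ) + 1 - ((i' + 1 : ℕ) : ℝ) := by
          have : ((i' + 1 : ℕ) : ℝ) ≤ (k : ℝ) := by exact_mod_cast h3
          linarith
        simp only [hT, Nat.add_sub_cancel]
        calc ((k : ℝ) + 1) * D (i' + 1) (k - i')
            = ((i' + 1 : ℕ) : ℝ) * D (i' + 1) (k - i')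
              + ((k : ℝ) + 1 - ((i' + 1 : ℕ) : ℝ)) * D (i' + 1) (k - i') := by ring
          _ ≤ _ := add_le_add (mul_le_mul_of_nonneg_left a1 hc1)
              (mul_le_mul_of_nonneg_left a2 hc2)
  have hsum := Finset.sum_le_sum hpt
  rw [← Finset.mul_sum] at hsum
  have hR : ∑ i ∈ Finset.range (k + 2), ((i : ℝ) * T (i - 1) + ((k : ℝ) + 1 - i) * T i)
      = ((k : ℝ) + 2) * ∑ i ∈ Finset.range (k + 1), T i := by
    rw [Finset.sum_add_distrib, Finset.sum_range_succ' (fun i => (i : ℝ) * T (i - 1)),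
      Finset.sum_range_succ (fun i : ℕ => ((k : ℝ) + 1 - i) * T i)]
    have e1 : ((k : ℝ) + 1 - ((k + 1 : ℕ) : ℝ)) = 0 := by push_cast; ring
    rw [e1, zero_mul, add_zero]
    simp only [Nat.cast_zero, zero_mul, add_zero, Nat.add_sub_cancel]
    rw [← Finset.sum_add_distrib, Finset.mul_sum]
    refine Finset.sum_congr rfl fun i _ => ?_
    push_cast
    ring
  rw [hR] at hsum
  rw [div_le_div_iff₀ hk2 hk1]
  linarith

/-- the contradiction: the lengths would be too large -/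
theorem growth (D l : ℕ → ℕ → ℝ) {K c : ℝ} (hK : 1 ≤ K) (hc : 0 < c) (hl : ∀ i j, 0 ≤ l i j)
    (hD0 : D 0 0 = 0) (h1 : ∀ i j, D (i + 1) j ≤ D i j + K * √(l i j))
    (h2 : ∀ i j, D i (j + 1) ≤ D i j + K * √(l i j))
    (hlow : ∀ i j, c * Real.exp (-(2 * D i j)) ≤ l i j)
    (hsum : ∀ n : ℕ, ∑ k ∈ Finset.range n, ∑ i ∈ Finset.range (k + 1), l i (k - i) ≤ 1) :
    False := by
  have hK0 : 0 < K := by linarith
  set A : ℕ → ℝ := fun k => (∑ i ∈ Finset.range (k + 1), D i (k - i)) / (k + 1) with hA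
  set L : ℕ → ℝ := fun k => ∑ i ∈ Finset.range (k + 1), l i (k - i) with hL
  have hL0 : ∀ k, 0 ≤ L k := fun k => Finset.sum_nonneg fun i _ => hl _ _
  have hL1 : ∀ k, L k ≤ 1 := by
    intro k
    have := hsum (k + 1)
    rw [Finset.sum_range_succ] at this
    have h3 : 0 ≤ ∑ x ∈ Finset.range k, ∑ i ∈ Finset.range (x + 1), l i (x - i) :=
      Finset.sum_nonneg fun x _ => hL0 x
    simp only [hL]
    linarith
  -- one step
  have hstep : ∀ k : ℕ, A (k + 1) ≤ A k + (K ^ 2 * L k + 1 / 4 * (1 / ((k : ℝ) + 1))) := by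
    intro k
    have hk1 : (0 : ℝ) < k + 1 := by positivity
    have h3 := avg_step D (fun i j => √(l i j)) K h1 h2 k
    have e1 : A (k + 1) = (∑ i ∈ Finset.range (k + 2), D i (k + 1 - i)) / (k + 2) := by
      simp only [hA]
      push_cast
      congr 1
      ring
    rw [e1]
    refine h3.trans ?_
    rw [Finset.sum_add_distrib, add_div]
    apply add_le_add le_rfl
    rw [div_le_iff₀ hk1]
    have h4 : ∀ i ∈ Finset.range (k + 1), K * √(l i (k - i))
        ≤ K ^ 2 * ((k : ℝ) + 1) * l i (k - i) + 1 / 4 * (1 / ((k : ℝ) + 1)) := by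
      intro i _
      set y := √(l i (k - i)) with hy
      have hy2 : y ^ 2 = l i (k - i) := Real.sq_sqrt (hl _ _)
      rw [← hy2]
      have h5 : 0 ≤ (K * ((k : ℝ) + 1) * y - 1 / 2) ^ 2 / ((k : ℝ) + 1) := by positivity
      have h6 : (K * ((k : ℝ) + 1) * y - 1 / 2) ^ 2 / ((k : ℝ) + 1)
          = K ^ 2 * ((k : ℝ) + 1) * y ^ 2 + 1 / 4 * (1 / ((k : ℝ) + 1)) - K * y := by
        field_simp
        ring
      linarith
    refine (Finset.sum_le_sum h4).trans (le_of_eq ?_)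
    rw [Finset.sum_add_distrib, ← Finset.mul_sum, Finset.sum_const, Finset.card_range,
      nsmul_eq_mul]
    push_cast
    simp only [hL]
    field_simp
  have hA0 : A 0 = 0 := by simp [hA, hD0]
  have hAn : ∀ n : ℕ, A n ≤ K ^ 2 * (∑ k ∈ Finset.range n, L k)
      + 1 / 4 * ∑ k ∈ Finset.range n, 1 / ((k : ℝ) + 1) := by
    intro n
    induction n with
    | zero => simp [hA0]
    | succ n ih =>
      rw [Finset.sum_range_succ, Finset.sum_range_succ]
      have := hstep n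
      linarith
  have hharm : ∀ n : ℕ, ∑ k ∈ Finset.range n, 1 / ((k : ℝ) + 1) ≤ 1 + Real.log n := by
    intro n
    have h3 := harmonic_le_one_add_log n
    have e : ((harmonic n : ℚ) : ℝ) = ∑ k ∈ Finset.range n, 1 / ((k : ℝ) + 1) := by
      unfold harmonic
      push_cast
      refine Finset.sum_congr rfl fun k _ => ?_
      rw [one_div]
    rw [← e]
    exact h3
  have hAn2 : ∀ n : ℕ, 1 ≤ n → A n ≤ K ^ 2 + 1 / 4 + 1 / 4 * Real.log n := by
    intro n _
    have h3 := hAn n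
    have h4 := hharm n
    have h5 : K ^ 2 * (∑ k ∈ Finset.range n, L k) ≤ K ^ 2 * 1 :=
      mul_le_mul_of_nonneg_left (hsum n) (by positivity)
    linarith
  -- lower bound by convexity
  have hlow2 : ∀ n : ℕ, c * ((n : ℝ) + 1) * Real.exp (-(2 * A n)) ≤ L n := by
    intro n
    have hn1 : (0 : ℝ) < n + 1 := by positivity
    have h3 : ∀ i ∈ Finset.range (n + 1),
        c * (Real.exp (-(2 * A n)) * (1 - 2 * (D i (n - i) - A n))) ≤ l i (n - i) := by
      intro i _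
      refine le_trans ?_ (hlow i (n - i))
      apply mul_le_mul_of_nonneg_left _ hc.le
      have e : -(2 * D i (n - i)) = -(2 * A n) + -(2 * (D i (n - i) - A n)) := by ring
      rw [e, Real.exp_add]
      apply mul_le_mul_of_nonneg_left _ (Real.exp_pos _).le
      have := Real.add_one_le_exp (-(2 * (D i (n - i) - A n)))
      linarith
    refine le_trans (le_of_eq ?_) (Finset.sum_le_sum h3)
    rw [← Finset.mul_sum, ← Finset.mul_sum]
    have e2 : ∑ i ∈ Finset.range (n + 1), (1 - 2 * (D i (n - i) - A n)) = (n : ℝ) + 1 := by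
      rw [Finset.sum_sub_distrib, ← Finset.mul_sum, Finset.sum_sub_distrib]
      simp only [Finset.sum_const, Finset.card_range, nsmul_eq_mul, mul_one]
      have e3 : ∑ i ∈ Finset.range (n + 1), D i (n - i) = ((n + 1 : ℕ) : ℝ) * A n := by
        simp only [hA]
        push_cast
        field_simp
      rw [e3]
      push_cast
      ring
    rw [e2]
    ring
  -- conclusion
  set c' : ℝ := c * Real.exp (-(2 * K ^ 2 + 1 / 2)) with hc'
  have hc'0 : 0 < c' := by positivity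
  obtain ⟨n, hn⟩ := exists_nat_gt (max 1 ((1 / c') ^ 2))
  have hn1 : (1 : ℝ) < n := lt_of_le_of_lt (le_max_left _ _) hn
  have hn2 : (1 / c') ^ 2 < n := lt_of_le_of_lt (le_max_right _ _) hn
  have hnn : 1 ≤ n := by
    have : (1 : ℝ) < n := hn1
    exact_mod_cast this.le
  have hn0 : (0 : ℝ) < n := by linarith
  have h3 := (hlow2 n).trans (hL1 n)
  have h4 : c' * Real.exp (-(1 / 2 * Real.log n)) ≤ c * Real.exp (-(2 * A n)) := by
    rw [hc', mul_assoc, ← Real.exp_add]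
    apply mul_le_mul_of_nonneg_left _ hc.le
    apply Real.exp_le_exp.2
    have := hAn2 n hnn
    linarith
  have h5 : Real.exp (-(1 / 2 * Real.log n)) = 1 / √n := by
    have e : √(n : ℝ) = Real.exp (1 / 2 * Real.log n) := by
      rw [Real.sqrt_eq_rpow, Real.rpow_def_of_pos hn0]
      congr 1
      ring
    rw [e, Real.exp_neg, one_div (Real.exp _)]
  rw [h5] at h4
  have hs0 : 0 < √(n : ℝ) := Real.sqrt_pos.2 hn0
  have h6 : c' * (1 / √n) * ((n : ℝ) + 1) ≤ 1 := by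
    have h7 := mul_le_mul_of_nonneg_right h4 (by positivity : (0 : ℝ) ≤ (n : ℝ) + 1)
    nlinarith
  have h7 : c' * √n ≤ 1 := by
    have h8 : (√(n : ℝ)) ^ 2 = n := Real.sq_sqrt hn0.le
    have h9 : c' * (1 / √n) * (n : ℝ) ≤ 1 := by
      have : 0 ≤ c' * (1 / √n) := by positivity
      nlinarith
    have h10 : c' * (1 / √n) * (n : ℝ) = c' * √n := by
      rw [mul_assoc]
      congr 1
      rw [one_div, inv_mul_eq_div, div_eq_iff hs0.ne', ← sq, h8]
    linarith
  have h8 : (1 / c') < √n := by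
    rw [Real.lt_sqrt (by positivity)]
    exact hn2
  rw [div_lt_iff₀ hc'0] at h8
  linarith

end Pool.Agent.K7.H79.G4
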