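import Mathlib

/-!
# Heisenberg group of dimension five acting on a line: a wandering family of intervals
-/

set_option autoImplicit false

namespace Pool.Agent.K7.H79.G4

variable {X : Type*} [CompleteLinearOrder X]

/-- `Z m` is the `m`-th power of a map fixing `p < q` and without fixed points in between -/
structure Zdata (Z : ℤ → X ≃o X) (p q : X) : Prop where
  lt : p < q
  add : ∀ m n t, Z (m + n) t = Z m (Z n t)
  fixp : ∀ m, Z m p = p
  fixq : ∀ m, Z m q = q
  free : ∀ t, p < t → t < q → Z 1 t ≠ t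

lemma Zdata.zero {Z : ℤ → X ≃o X} {p q : X} (h : Zdata Z p q) (t : X) : Z 0 t = t := by
  have := h.add 0 0 t
  rw [add_zero] at this
  exact ((Z 0).injective this).symm

lemma Zdata.neg {Z : ℤ → X ≃o X} {p q : X} (h : Zdata Z p q) : Zdata (fun m => Z (-m)) p q where
  lt := h.lt
  add m n t := by rw [neg_add, h.add]
  fixp m := h.fixp _
  fixq m := h.fixq _
  free t h1 h2 := by
    intro h3
    apply h.free t h1 h2
    have h4 : Z 1 (Z (-1) t) = t := by rw [← h.add, add_neg_cancel, h.zero]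
    rw [h3] at h4
    exact h4

lemma Zdata.mem {Z : ℤ → X ≃o X} {p q : X} (h : Zdata Z p q) {t : X} (h1 : p < t) (h2 : t < q)
    (m : ℤ) : p < Z m t ∧ Z m t < q := by
  constructor
  · have := (Z m).strictMono h1
    rwa [h.fixp] at this
  · have := (Z m).strictMono h2
    rwa [h.fixq] at this

/-- points go to `q` -/
lemma Zdata.up {Z : ℤ → X ≃o X} {p q : X} (h : Zdata Z p q) {w : X} (hw : p < w)
    (hpos : w < Z 1 w) {r : X} (hr2 : r < q) : ∃ n : ℕ, r < Z n w := by
  by_contra hcon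
  push Not at hcon
  set s : X := ⨆ n : ℕ, Z (n : ℤ) w with hs
  have h1 : s ≤ r := iSup_le hcon
  have h2 : w ≤ s := by
    have := le_iSup (fun n : ℕ => Z (n : ℤ) w) 0
    simpa [h.zero] using this
  have h3 : Z 1 s = s := by
    rw [hs, (Z 1).map_iSup]
    apply le_antisymm
    · apply iSup_le
      intro n
      rw [← h.add]
      have : (1 : ℤ) + n = ((n + 1 : ℕ) : ℤ) := by push_cast; ring
      rw [this]
      exact le_iSup (fun n : ℕ => Z (n : ℤ) w) (n + 1)
    · apply iSup_le
      intro n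
      rcases n with _ | n
      · refine le_trans ?_ (le_iSup (fun n : ℕ => Z 1 (Z (n : ℤ) w)) 0)
        simp only [Nat.cast_zero, h.zero]
        exact hpos.le
      · refine le_trans (le_of_eq ?_) (le_iSup (fun n : ℕ => Z 1 (Z (n : ℤ) w)) n)
        rw [← h.add]
        congr 2
        push_cast
        ring
  exact h.free s (lt_of_lt_of_le hw h2) (lt_of_le_of_lt h1 hr2) h3

/-- points come from `p` -/
lemma Zdata.down {Z : ℤ → X ≃o X} {p q : X} (h : Zdata Z p q) {w : X} (hw2 : w < q)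
    (hpos : w < Z 1 w) {r : X} (hr : p < r) : ∃ n : ℕ, Z (-(n : ℤ)) w < r := by
  by_contra hcon
  push Not at hcon
  set s : X := ⨅ n : ℕ, Z (-(n : ℤ)) w with hs
  have h1 : r ≤ s := le_iInf hcon
  have h2 : s ≤ w := by
    have := iInf_le (fun n : ℕ => Z (-(n : ℤ)) w) 0
    simpa [h.zero] using this
  have h3 : Z 1 s = s := by
    rw [hs, (Z 1).map_iInf]
    apply le_antisymm
    · apply le_iInf
      intro n
      refine (iInf_le (fun n : ℕ => Z 1 (Z (-(n : ℤ)) w)) (n + 1)).trans (le_of_eq ?_)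
      rw [← h.add]
      congr 2
      push_cast
      ring
    · apply le_iInf
      intro n
      rcases n with _ | n
      · refine (iInf_le (fun n : ℕ => Z (-(n : ℤ)) w) 0).trans ?_
        simp only [Nat.cast_zero, neg_zero, h.zero]
        exact hpos.le
      · refine (iInf_le (fun n : ℕ => Z (-(n : ℤ)) w) n).trans (le_of_eq ?_)
        rw [← h.add]
        congr 2
        push_cast
        ring
  exact h.free s (lt_of_lt_of_le hr h1) (lt_of_le_of_lt h2 hw2) h3

/-- monotonicity in the exponent -/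
lemma Zdata.inc {Z : ℤ → X ≃o X} {p q : X} (h : Zdata Z p q) {w : X} (hw : p < w) (hw2 : w < q)
    (hpos : w < Z 1 w) {r : X} (hr : p < r) (hr2 : r < q) : r < Z 1 r := by
  obtain ⟨n1, hn1⟩ := h.up hw hpos hr2
  obtain ⟨n2, hn2⟩ := h.down hw2 hpos hr
  have hstep : ∀ j : ℤ, Z j w < Z (j + 1) w := by
    intro j
    rw [h.add]
    exact (Z j).strictMono hpos
  have hmono : StrictMono fun j : ℤ => Z j w := strictMono_int_of_lt_succ hstep
  obtain ⟨j, hj, hmax⟩ := Int.exists_greatest_of_bdd (P := fun j : ℤ => Z j w ≤ r)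
    ⟨n1, fun j hj => by
      by_contra hlt
      push Not at hlt
      exact absurd (hn1.trans (hmono hlt)) (not_lt.2 hj)⟩ ⟨-(n2 : ℤ), hn2.le⟩
  have h1 : r < Z (j + 1) w := by
    by_contra hle
    push Not at hle
    have := hmax _ hle
    omega
  refine lt_of_lt_of_le h1 ?_
  rw [add_comm, h.add]
  exact (Z 1).monotone hj

lemma Zdata.incn {Z : ℤ → X ≃o X} {p q : X} (h : Zdata Z p q) {w : X} (hw : p < w) (hw2 : w < q)
    (hpos : w < Z 1 w) {r : X} (hr : p < r) (hr2 : r < q) : StrictMono fun j : ℤ => Z j r := by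
  apply strictMono_int_of_lt_succ
  intro j
  rw [h.add]
  exact (Z j).strictMono (h.inc hw hw2 hpos hr hr2)

lemma key_pos {Z : ℤ → X ≃o X} {p q : X} (h : Zdata Z p q) {w : X} (hw : p < w) (hw2 : w < q)
    (hpos : w < Z 1 w) {x y : X ≃o X} (hxp : x p = p) (hxq : x q = q) (hyp : y p = p)
    (hyq : y q = q) (hxZ : ∀ m t, x (Z m t) = Z m (x t)) (hyZ : ∀ m t, y (Z m t) = Z m (y t))
    {m : ℤ} (hm : 1 ≤ m) (hxy : ∀ t, x (y t) = Z m (y (x t))) : False := by
  have hxw : p < x w ∧ x w < q := by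
    refine ⟨?_, ?_⟩
    · rw [← hxp]; exact x.strictMono hw
    · rw [← hxq]; exact x.strictMono hw2
  obtain ⟨K, hK⟩ := h.up hw hpos hxw.2
  obtain ⟨K', hK'⟩ := h.down hw2 hpos hxw.1
  -- iterates of `y`
  have hyi : ∀ n : ℕ, (∀ t, p < t → t < q → p < (y^[n]) t ∧ (y^[n]) t < q) := by
    intro n
    induction n with
    | zero => intro t h1 h2; exact ⟨h1, h2⟩
    | succ n ih =>
      intro t h1 h2
      rw [Function.iterate_succ_apply]
      apply ih
      · rw [← hyp]; exact y.strictMono h1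
      · rw [← hyq]; exact y.strictMono h2
  have hyZn : ∀ (n : ℕ) (k : ℤ) t, (y^[n]) (Z k t) = Z k ((y^[n]) t) := by
    intro n k
    induction n with
    | zero => intro t; rfl
    | succ n ih =>
      intro t
      rw [Function.iterate_succ_apply, Function.iterate_succ_apply, hyZ, ih]
  have hymono : ∀ n : ℕ, StrictMono (y^[n]) := fun n => y.strictMono.iterate n
  have hxyn : ∀ (n : ℕ) t, x ((y^[n]) t) = Z (m * n) ((y^[n]) (x t)) := by
    intro n
    induction n with
    | zero => intro t; simp [h.zero]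
    | succ n ih =>
      intro t
      rw [Function.iterate_succ_apply, ih, hxy, hyZn, ← h.add, Function.iterate_succ_apply]
      congr 2
      push_cast
      ring
  set n : ℕ := K + K' + 1 with hn
  obtain ⟨hr1, hr2⟩ := hyi n w hw hw2
  set r := (y^[n]) w with hr
  have hmonoW := h.incn hw hw2 hpos hw hw2
  have hmonoR := h.incn hw hw2 hpos hr1 hr2
  -- lower bound
  have hlow : Z (m * n - K') r < x r := by
    have e1 : x r = Z (m * n) ((y^[n]) (x w)) := hxyn n w
    rw [e1]
    have e2 : Z (m * n - K') r = Z (m * n) ((y^[n]) (Z (-(K' : ℤ)) w)) := by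
      rw [hyZn, ← h.add, sub_eq_add_neg]
    rw [e2]
    exact (Z (m * n)).strictMono (hymono n hK')
  -- upper bound
  have hup : x r < Z (K + 1) r := by
    obtain ⟨n1, hn1⟩ := h.up hw hpos hr2
    obtain ⟨n2, hn2⟩ := h.down hw2 hpos hr1
    obtain ⟨j, hj, hmax⟩ := Int.exists_greatest_of_bdd (P := fun j : ℤ => Z j w ≤ r)
      ⟨n1, fun j hj => by
        by_contra hlt
        push Not at hlt
        exact absurd (hn1.trans (hmonoW hlt)) (not_lt.2 hj)⟩ ⟨-(n2 : ℤ), hn2.le⟩
    have h1 : r < Z (j + 1) w := by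
      by_contra hle
      push Not at hle
      have := hmax _ hle
      omega
    calc x r < x (Z (j + 1) w) := x.strictMono h1
      _ = Z (j + 1) (x w) := hxZ _ _
      _ < Z (j + 1) (Z K w) := (Z (j + 1)).strictMono hK
      _ = Z (K + 1) (Z j w) := by
          rw [← h.add, ← h.add]
          congr 2
          ring
      _ ≤ Z (K + 1) r := (Z _).monotone hj
  have h2 := hlow.trans hup
  have h3 : m * n - K' < K + 1 := by
    by_contra hge
    push Not at hge
    exact absurd h2 (not_lt.2 (hmonoR.monotone hge))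
  have h4 : (n : ℤ) ≤ m * n := by nlinarith
  have h5 : (n : ℤ) = K + K' + 1 := by rw [hn]; push_cast; ring
  omega

/-- a central map without fixed points is not a commutator -/
theorem key {Z : ℤ → X ≃o X} {p q : X} (h : Zdata Z p q) {w : X} (hw : p < w) (hw2 : w < q)
    {x y : X ≃o X} (hxp : x p = p) (hxq : x q = q) (hyp : y p = p) (hyq : y q = q)
    (hxZ : ∀ m t, x (Z m t) = Z m (x t)) (hyZ : ∀ m t, y (Z m t) = Z m (y t)) {m : ℤ}
    (hxy : ∀ t, x (y t) = Z m (y (x t))) : m = 0 := by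
  have hyx : ∀ t, y (x t) = Z (-m) (x (y t)) := by
    intro t
    rw [hxy, ← h.add, neg_add_cancel, h.zero]
  rcases lt_or_gt_of_ne (h.free w hw hw2) with h1 | h1
  · -- `Z 1 w < w`
    have hpos : w < (fun m => Z (-m)) 1 w := by
      simp only
      have := (Z (-1)).strictMono h1
      rwa [← h.add, neg_add_cancel, h.zero] at this
    rcases lt_trichotomy m 0 with hm | hm | hm
    · exfalso
      refine key_pos h.neg hw hw2 hpos hxp hxq hyp hyq (fun k t => hxZ _ t) (fun k t => hyZ _ t)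
        (m := -m) (by omega) (fun t => ?_)
      rw [neg_neg]; exact hxy t
    · exact hm
    · exfalso
      refine key_pos h.neg hw hw2 hpos hyp hyq hxp hxq (fun k t => hyZ _ t) (fun k t => hxZ _ t)
        (m := m) (by omega) (fun t => hyx t)
  · rcases lt_trichotomy m 0 with hm | hm | hm
    · exfalso
      exact key_pos h hw hw2 h1 hyp hyq hxp hxq hyZ hxZ (m := -m) (by omega) hyx
    · exact hm
    · exfalso
      exact key_pos h hw hw2 h1 hxp hxq hyp hyq hxZ hyZ (m := m) (by omega) hxy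

/-- the bilinear form -/
def bet (v v' : ℤ × ℤ × ℤ × ℤ) : ℤ := v.1 * v'.2.1 + v.2.2.1 * v'.2.2.2

/-- an action of the Heisenberg group of dimension five -/
structure Heis (U : ℤ × ℤ × ℤ × ℤ → ℤ → X ≃o X) : Prop where
  mul : ∀ v t v' t' x, U v t (U v' t' x) = U (v + v') (t + t' + bet v v') x
  nontriv : ∃ x, U 0 1 x ≠ x

lemma bet_zero_left (v) : bet 0 v = 0 := by simp [bet]
lemma bet_zero_right (v) : bet v 0 = 0 := by simp [bet]

lemma Heis.one {U : ℤ × ℤ × ℤ × ℤ → ℤ → X ≃o X} (h : Heis U) (x : X) : U 0 0 x = x := by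
  have := h.mul 0 0 0 0 x
  rw [bet_zero_left] at this
  simp only [add_zero] at this
  exact (U 0 0).injective this

/-- there is an interval and a family of wandering images -/
theorem exists_family {U : ℤ × ℤ × ℤ × ℤ → ℤ → X ≃o X} (h : Heis U) :
    ∃ (p q w : X), p < w ∧ w < q ∧ U 0 1 p = p ∧ U 0 1 q = q ∧ U 0 1 w ≠ w ∧
    ∃ v1 v2 : ℤ × ℤ × ℤ × ℤ,
      (∀ i j i' j' : ℤ, bet (i • v1 + j • v2) (i' • v1 + j' • v2) = 0) ∧
      ∀ i j i' j' : ℤ, (i, j) ≠ (i', j') →
        U (i • v1 + j • v2) 0 q ≤ U (i' • v1 + j' • v2) 0 p ∨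
        U (i' • v1 + j' • v2) 0 q ≤ U (i • v1 + j • v2) 0 p := by
  obtain ⟨w, hw⟩ := h.nontriv
  set z := U 0 1 with hz
  -- the component
  set Sp : Set X := {y | y ≤ w ∧ z y = y} with hSp
  set Sq : Set X := {y | w ≤ y ∧ z y = y} with hSq
  set p := sSup Sp with hp
  set q := sInf Sq with hq
  have hpfix : z p = p := by
    rw [hp, z.map_sSup]
    have : ⨆ a ∈ Sp, z a = ⨆ a ∈ Sp, a := by
      apply iSup_congr
      intro a
      apply iSup_congr
      intro ha
      exact ha.2
    rw [this, ← sSup_eq_iSup]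
  have hqfix : z q = q := by
    rw [hq, z.map_sInf]
    have : ⨅ a ∈ Sq, z a = ⨅ a ∈ Sq, a := by
      apply iInf_congr
      intro a
      apply iInf_congr
      intro ha
      exact ha.2
    rw [this, ← sInf_eq_iInf]
  have hpw : p < w := by
    refine lt_of_le_of_ne (sSup_le fun y hy => hy.1) ?_
    intro e
    rw [e] at hpfix
    exact hw hpfix
  have hwq : w < q := by
    refine lt_of_le_of_ne (le_sInf fun y hy => hy.1) ?_
    intro e
    rw [← e] at hqfix
    exact hw hqfix
  have hfree : ∀ t, p < t → t < q → z t ≠ t := by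
    intro t h1 h2 h3
    rcases le_total t w with h4 | h4
    · exact absurd (le_sSup (show t ∈ Sp from ⟨h4, h3⟩)) (not_le.2 h1)
    · exact absurd (sInf_le (show t ∈ Sq from ⟨h4, h3⟩)) (not_le.2 h2)
  -- powers of `z`
  have hadd : ∀ (m n : ℤ) t, U 0 (m + n) t = U 0 m (U 0 n t) := by
    intro m n t
    rw [h.mul, bet_zero_left, add_zero, add_zero]
  have hfixm : ∀ s, z s = s → ∀ m : ℤ, U 0 m s = s := by
    intro s hs m
    have hnat : ∀ n : ℕ, U 0 (n : ℤ) s = s := by
      intro n
      induction n with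
      | zero => exact h.one s
      | succ n ih =>
        push_cast
        rw [hadd]
        change U 0 (n : ℤ) (z s) = s
        rw [hs, ih]
    rcases Int.eq_nat_or_neg m with ⟨n, rfl | rfl⟩
    · exact hnat n
    · have h1 := hadd (-(n : ℤ)) n s
      rw [neg_add_cancel, h.one, hnat] at h1
      exact h1.symm
  have hZ : Zdata (fun m => U 0 m) p q :=
    ⟨hpw.trans hwq, hadd, hfixm p hpfix, hfixm q hqfix, hfree⟩
  -- commutation with the centre
  have hcent : ∀ v (m : ℤ) t, U v 0 (U 0 m t) = U 0 m (U v 0 t) := by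
    intro v m t
    rw [h.mul, h.mul, bet_zero_left, bet_zero_right]
    simp
  -- the commutator relation for elements of the stabiliser
  have hcomm : ∀ v v', U v 0 p = p → U v 0 q = q → U v' 0 p = p → U v' 0 q = q →
      bet v v' - bet v' v = 0 := by
    intro v v' h1 h2 h3 h4
    refine key hZ hpw hwq h1 h2 h3 h4 (hcent v) (hcent v') (fun t => ?_)
    have e1 : v + v' = 0 + v' + v := by rw [zero_add, add_comm]
    have e2 : (0 : ℤ) + 0 + bet v v'
        = bet v v' - bet v' v + 0 + bet 0 v' + 0 + bet (0 + v') v := by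
      rw [bet_zero_left, zero_add v']; ring
    rw [h.mul v 0 v' 0 t, h.mul 0 _ v' 0, h.mul _ _ v 0 t, ← e1, ← e2]
  refine ⟨p, q, w, hpw, hwq, hpfix, hqfix, hw, ?_⟩
  -- it is enough to find a free pair
  have hred : ∀ v1 v2 : ℤ × ℤ × ℤ × ℤ,
      (∀ i j i' j' : ℤ, bet (i • v1 + j • v2) (i' • v1 + j' • v2) = 0) →
      (∀ i j : ℤ, U (i • v1 + j • v2) 0 p = p → U (i • v1 + j • v2) 0 q = q → i = 0 ∧ j = 0) →
      ∀ i j i' j' : ℤ, (i, j) ≠ (i', j') →
        U (i • v1 + j • v2) 0 q ≤ U (i' • v1 + j' • v2) 0 p ∨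
        U (i' • v1 + j' • v2) 0 q ≤ U (i • v1 + j • v2) 0 p := by
    intro v1 v2 hlag hfr i j i' j' hne
    by_contra hcon
    push Not at hcon
    obtain ⟨hc1, hc2⟩ := hcon
    -- the map `U (i,j) U(i',j')⁻¹`
    set g := U (i • v1 + j • v2) 0 with hg
    set g' := U (i' • v1 + j' • v2) 0 with hg'
    have hzfix : ∀ v s, z s = s → z (U v 0 s) = U v 0 s := by
      intro v s hs
      have := hcent v 1 s
      change U v 0 (z s) = z (U v 0 s) at this
      rw [← this, hs]
    have hnofix : ∀ v t, U v 0 p < t → t < U v 0 q → z t ≠ t := by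
      intro v t h1 h2 h3
      have h4 : p < (U v 0).symm t := by
        rw [OrderIso.lt_symm_apply]; exact h1
      have h5 : (U v 0).symm t < q := by
        rw [OrderIso.symm_apply_lt]; exact h2
      apply hfree _ h4 h5
      apply (U v 0).injective
      have := hcent v 1 ((U v 0).symm t)
      change U v 0 (z _) = z (U v 0 _) at this
      rw [this, OrderIso.apply_symm_apply, h3]
    have hgp : g p = g' p := by
      rcases lt_trichotomy (g p) (g' p) with h1 | h1 | h1
      · exact absurd (hzfix _ p hpfix) (hnofix _ _ h1 hc1)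
      · exact h1
      · exact absurd (hzfix _ p hpfix) (hnofix _ _ h1 hc2)
    have hgq : g q = g' q := by
      rcases lt_trichotomy (g q) (g' q) with h1 | h1 | h1
      · exact absurd (hzfix _ q hqfix) (hnofix _ _ hc1 h1)
      · exact h1
      · exact absurd (hzfix _ q hqfix) (hnofix _ _ hc2 h1)
    have hdiff : ∀ s, g s = g' s →
        U ((i - i') • v1 + (j - j') • v2) 0 s = s := by
      intro s hs
      apply g'.injective
      rw [← hs, hg', hg, h.mul, hlag]
      congr 2
      simp only [sub_smul]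
      abel
    obtain ⟨h1, h2⟩ := hfr (i - i') (j - j') (hdiff p hgp) (hdiff q hgq)
    apply hne
    rw [Prod.mk.injEq]
    constructor <;> omega
  by_contra hcon
  push Not at hcon
  -- the four Lagrangian planes
  have get : ∀ v1 v2 : ℤ × ℤ × ℤ × ℤ,
      (∀ i j i' j' : ℤ, bet (i • v1 + j • v2) (i' • v1 + j' • v2) = 0) →
      ∃ i j : ℤ, U (i • v1 + j • v2) 0 p = p ∧ U (i • v1 + j • v2) 0 q = q ∧
        ¬ (i = 0 ∧ j = 0) := by
    intro v1 v2 hlag
    by_contra hno
    push Not at hno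
    obtain ⟨i, j, i', j', hne, h1, h2⟩ := hcon v1 v2 hlag
    rcases hred v1 v2 hlag (fun i j h3 h4 => hno i j h3 h4) i j i' j' hne with h3 | h3
    · exact absurd h3 (not_le.2 h1)
    · exact absurd h3 (not_le.2 h2)
  obtain ⟨i, j, a1, a2, a3⟩ := get (1, 0, 0, 0) (0, 0, 0, 1) (by
    intro i j i' j'; simp [bet])
  obtain ⟨q1, p1, b1, b2, b3⟩ := get (0, 1, 0, 0) (0, 0, 0, 1) (by
    intro i j i' j'; simp [bet])
  obtain ⟨r, s, c1, c2, c3⟩ := get (1, 0, 0, 0) (0, 0, 1, 0) (by
    intro i j i' j'; simp [bet])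
  obtain ⟨k, l, d1, d2, d3⟩ := get (0, 0, 1, 0) (0, 1, 0, 0) (by
    intro i j i' j'; simp [bet])
  have e1 := hcomm _ _ a1 a2 b1 b2
  have e2 := hcomm _ _ a1 a2 c1 c2
  have e3 := hcomm _ _ d1 d2 b1 b2
  have e4 := hcomm _ _ d1 d2 c1 c2
  have e5 := hcomm _ _ c1 c2 b1 b2
  simp [bet] at e1 e2 e3 e4 e5
  rcases e1 with h1 | h1
  · -- `i = 0`
    have hj : j ≠ 0 := fun h2 => a3 ⟨h1, h2⟩
    have hs : s = 0 := by
      rcases e2 with h2 | h2
      · exact h2
      · exact absurd h2 hj
    have hr : r ≠ 0 := fun h2 => c3 ⟨h2, hs⟩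
    have hl : l = 0 := by
      rcases e4 with h2 | h2
      · exact absurd h2 hr
      · exact h2
    have hk : k ≠ 0 := fun h2 => d3 ⟨h2, hl⟩
    have hp1 : p1 = 0 := by
      rcases e3 with h2 | h2
      · exact absurd h2 hk
      · exact h2
    have hq1 : q1 ≠ 0 := fun h2 => b3 ⟨h2, hp1⟩
    rw [hs, hp1] at e5
    simp [hr, hq1] at e5
  · -- `q1 = 0`
    have hp1 : p1 ≠ 0 := fun h2 => b3 ⟨h1, h2⟩
    have hk : k = 0 := by
      rcases e3 with h2 | h2
      · exact h2
      · exact absurd h2 hp1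
    have hl : l ≠ 0 := fun h2 => d3 ⟨hk, h2⟩
    have hr : r = 0 := by
      rcases e4 with h2 | h2
      · exact h2
      · exact absurd h2 hl
    have hs : s ≠ 0 := fun h2 => c3 ⟨hr, h2⟩
    rw [hr, h1] at e5
    simp [hs, hp1] at e5

end Pool.Agent.K7.H79.G4
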